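import Mathlib

/-!
Project DF: the discrete Fatou theorem fails (MP_3555ad_an).
Definitions.
-/

namespace H637F

open Real

/-! ### The spiral complex -/

/-- The sequence `M` drives the complex: vertex `n` is closed by the new vertices
`M n + 1, ..., M (n+1)`. -/
structure Good (M : ℕ → ℕ) : Prop where
  zero : M 0 = 1
  step : ∀ n, M n + 50 ≤ M (n + 1)

/-- basic faces (positively oriented). -/
def BF (M : ℕ → ℕ) : Set (ℕ × ℕ × ℕ) :=
  {f | ∃ n, (∃ j, M n ≤ j ∧ j < M (n + 1) ∧ f = (n, j, j + 1)) ∨ f = (n, M (n + 1), n + 1)}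

/-- all positively oriented faces (closed under cyclic rotation). -/
def FF (M : ℕ → ℕ) : Set (ℕ × ℕ × ℕ) :=
  {f | ∃ x y z, (x, y, z) ∈ BF M ∧ (f = (x, y, z) ∨ f = (y, z, x) ∨ f = (z, x, y))}

/-- `par M k` is the `m` with `M m ≤ k < M (m+1)` (for `k ≥ 1`). -/
def par (M : ℕ → ℕ) (k : ℕ) : ℕ := Nat.findGreatest (fun m => M m ≤ k) k

/-- number of inner neighbours of `n` which are listed before `M n`. -/
def iot (M : ℕ → ℕ) (n : ℕ) : ℕ :=
  if n = 0 then 0 else if n = 1 then 2 else if M (par M n) = n then 4 else 3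

/-- the inner neighbours, counterclockwise: `n+1, par n, (par n - 1), n - 1`. -/
def inn (M : ℕ → ℕ) (n i : ℕ) : ℕ :=
  if n = 1 then (if i = 0 then 2 else 0)
  else if M (par M n) = n then
    (if i = 0 then n + 1 else if i = 1 then par M n else if i = 2 then par M n - 1 else n - 1)
  else (if i = 0 then n + 1 else if i = 1 then par M n else n - 1)

/-- the neighbours of `n`, counterclockwise: inner ones, then `M n, M n + 1, ..., M (n+1)`. -/
def w (M : ℕ → ℕ) (n i : ℕ) : ℕ := if i < iot M n then inn M n i else M n + (i - iot M n)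

/-- the degree of `n`. -/
def deg (M : ℕ → ℕ) (n : ℕ) : ℕ := iot M n + (M (n + 1) - M n + 1)

/-- total angle at `n`. -/
noncomputable def tot (A : ℝ → ℝ → ℝ → ℝ) (M : ℕ → ℕ) (b : ℕ → ℝ) (n : ℕ) : ℝ :=
  ∑ i ∈ Finset.range (deg M n), A (b n) (b (w M n i)) (b (w M n ((i + 1) % deg M n)))

/-- next vertex on the boundary cycle `n, n+1, ..., M n`. -/
def nx (M : ℕ → ℕ) (n k : ℕ) : ℕ := if k < M n then k + 1 else n

/-! ### Angles -/

/-- hyperbolic angle at the circle of radius `R`, `r = exp (-R)`, of a tangent triple with the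
other two radii `S, T`, `s = exp (-S)`, `t = exp (-T)`. -/
noncomputable def ha (r s t : ℝ) : ℝ :=
  2 * arcsin (r * √((1 - s ^ 2) * (1 - t ^ 2) / ((1 - r ^ 2 * s ^ 2) * (1 - r ^ 2 * t ^ 2))))

/-- euclidean angle at the circle of radius `r` of a tangent triple with radii `r, s, t`. -/
noncomputable def ea (r s t : ℝ) : ℝ := 2 * arcsin (√(s * t / ((r + s) * (r + t))))

/-! ### The hyperboloid model -/

/-- Vectors `(x, y, t)`. -/
abbrev V3 := ℝ × ℝ × ℝ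

def mink (X Y : V3) : ℝ := X.1 * Y.1 + X.2.1 * Y.2.1 - X.2.2 * Y.2.2

def det3 (X Y Z : V3) : ℝ :=
  X.1 * (Y.2.1 * Z.2.2 - Y.2.2 * Z.2.1) - X.2.1 * (Y.1 * Z.2.2 - Y.2.2 * Z.1)
    + X.2.2 * (Y.1 * Z.2.1 - Y.2.1 * Z.1)

def OO : V3 := (0, 0, 1)

def Hyp (X : V3) : Prop := mink X X = -1 ∧ 0 < X.2.2

/-- `cosh (R + S)` for `a = exp (-R)`, `b = exp (-S)`. -/
noncomputable def Ch (a b : ℝ) : ℝ := (1 + a ^ 2 * b ^ 2) / (2 * a * b)

/-- `sinh (R + S)`. -/
noncomputable def Sh (a b : ℝ) : ℝ := (1 - a ^ 2 * b ^ 2) / (2 * a * b)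

/-- positively oriented tangent triple in the hyperbolic plane. -/
def HT (X Y Z : V3) (a b c : ℝ) : Prop :=
  mink X Y = -Ch a b ∧ mink Y Z = -Ch b c ∧ mink X Z = -Ch a c ∧ 0 < det3 X Y Z

/-- positively oriented tangent triple in the plane. -/
def ET (x y z : ℂ) (a b c : ℝ) : Prop :=
  ‖x - y‖ = a + b ∧ ‖y - z‖ = b + c ∧ ‖x - z‖ = a + c ∧
    0 < ((starRingEnd ℂ) (y - x) * (z - x)).im

/-- Oriented Lorentz orthonormal frame. -/
def Frame (X E F : V3) : Prop :=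
  mink X X = -1 ∧ mink E E = 1 ∧ mink F F = 1 ∧ mink X E = 0 ∧ mink X F = 0 ∧ mink E F = 0 ∧
    det3 X E F = 1

/-- the point with polar coordinates `cosh = C`, `sinh = S`, angle `θ` in the frame. -/
noncomputable def pol (X E F : V3) (C S θ : ℝ) : V3 :=
  C • X + S • (Real.cos θ • E + Real.sin θ • F)

/-- The hyperbolic layout of the maximal packing. -/
structure HL (M : ℕ → ℕ) (b : ℕ → ℝ) (X : ℕ → V3) : Prop where
  good : Good M
  bpos : ∀ n, 0 < b n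
  ble : ∀ n, b n ≤ 1 / 8
  tt : ∀ n, tot ha M b n = 2 * π
  x0 : X 0 = OO
  hyp : ∀ n, Hyp (X n)
  tri : ∀ x y z, (x, y, z) ∈ FF M → HT (X x) (X y) (X z) (b x) (b y) (b z)

/-- closed and open triangles (as cones). -/
def InT (X Y Z P : V3) : Prop := 0 ≤ det3 X Y P ∧ 0 ≤ det3 Y Z P ∧ 0 ≤ det3 Z X P
def StT (X Y Z P : V3) : Prop := 0 < det3 X Y P ∧ 0 < det3 Y Z P ∧ 0 < det3 Z X P

/-- the polygon spanned by the boundary cycle `n, ..., M n`. -/
def Reg (M : ℕ → ℕ) (X : ℕ → V3) (n : ℕ) (P : V3) : Prop :=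
  ∀ k, n ≤ k → k ≤ M n → 0 ≤ det3 (X k) (X (nx M n k)) P

/-- convexity of the boundary cycle `n, ..., M n`. -/
def Cvx (M : ℕ → ℕ) (X : ℕ → V3) (n : ℕ) : Prop :=
  ∀ k, n ≤ k → k ≤ M n → ∀ l, n ≤ l → l ≤ M n → l ≠ k → l ≠ nx M n k →
    0 < det3 (X k) (X (nx M n k)) (X l)

/-! ### Euclidean circles in the unit disc -/

noncomputable def cR (b : ℝ) : ℝ := (1 + b ^ 2) / (2 * b)
noncomputable def sR (b : ℝ) : ℝ := (1 - b ^ 2) / (2 * b)

/-- euclidean centre of the hyperbolic circle with centre `X`, radius `-log b`. -/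
noncomputable def ez (X : V3) (b : ℝ) : ℂ :=
  ((X.1 / (X.2.2 + cR b) : ℝ) : ℂ) + ((X.2.1 / (X.2.2 + cR b) : ℝ) : ℂ) * Complex.I

/-- its euclidean radius. -/
noncomputable def er (X : V3) (b : ℝ) : ℝ := sR b / (X.2.2 + cR b)

/-- direction vector. -/
noncomputable def DD (φ : ℝ) : V3 := (Real.cos φ, Real.sin φ, 0)

/-- unit direction (complex number) of `X` seen from the origin. -/
noncomputable def ed (X : V3) : ℂ :=
  ((X.1 / √(X.1 ^ 2 + X.2.1 ^ 2) : ℝ) : ℂ) + ((X.2.1 / √(X.1 ^ 2 + X.2.1 ^ 2) : ℝ) : ℂ) * Complex.I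

/-- the direction `φ` is between the directions of `X` and `Y`. -/
def Btw (φ : ℝ) (X Y : V3) : Prop := 0 ≤ det3 OO X (DD φ) ∧ 0 ≤ det3 OO (DD φ) Y

/-! ### The combinatorics of the bounded packing -/

/-- number of prescribed children on each side. -/
def JJ (n : ℕ) : ℕ := if n = 0 then 0 else 10 ^ 6 * 2 ^ n

/-- the sequence used. -/
def MM : ℕ → ℕ
  | 0 => 1
  | n + 1 => MM n + (8 * JJ n + 50)

/-- base points of the three types. -/
noncomputable def pp (t : ℕ) : ℂ := if t = 0 then -1 else if t = 1 then 1 else 0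

/-- triangle with three different types, centres near the base points. -/
def GT (c : ℕ → ℂ) (ty : ℕ → ℕ) (x y z : ℕ) : Prop :=
  ty x ≠ ty y ∧ ty y ≠ ty z ∧ ty x ≠ ty z ∧ ty x < 3 ∧ ty y < 3 ∧ ty z < 3 ∧
    ‖c x - pp (ty x)‖ ≤ 1 / 10 ∧ ‖c y - pp (ty y)‖ ≤ 1 / 10 ∧ ‖c z - pp (ty z)‖ ≤ 1 / 10

/-- what is needed of the bounded packing. `G k`: the spiral edge `(k, k+1)` is good. -/
structure PL (r : ℕ → ℝ) (c : ℕ → ℂ) (ty : ℕ → ℕ) (G : ℕ → Prop) : Prop where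
  rpos : ∀ n, 0 < r n
  tri : ∀ x y z, (x, y, z) ∈ FF MM → ET (c x) (c y) (c z) (r x) (r y) (r z)
  bdd : ∃ B : ℝ, ∀ n, ‖c n‖ + r n ≤ B
  g1 : G 1
  first : GT c ty 0 1 2
  right0 : ∀ n, 1 ≤ n → G n → GT c ty n (MM (n + 1)) (n + 1)
  right1 : ∀ n, 1 ≤ n → G n → ∀ i, 1 ≤ i → i < JJ n →
    G (MM (n + 1) - i) ∧ GT c ty n (MM (n + 1) - i) (MM (n + 1) - i + 1)
  left1 : ∀ n, 2 ≤ n → G (n - 1) → ∀ i, i < JJ n →
    G (MM n + i) ∧ GT c ty n (MM n + i) (MM n + i + 1)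

end H637F
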