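import Mathlib

/-!
Definitions used in the final statement (discrete Fatou theorem, MP_3555ad_an).

A complex `K` with vertex set `ℕ` is given by the set of its positively oriented faces
`(x, y, z)`.
-/

namespace DFatou

open MeasureTheory Filter Topology

/-- Two vertices are joined by an edge of `K` iff they are two vertices of a face. -/
def Adj (K : Set (ℕ × ℕ × ℕ)) (x y : ℕ) : Prop := ∃ z, (x, y, z) ∈ K ∨ (y, x, z) ∈ K

/-- Elementary homotopies of edge paths: a spur `a b a` is replaced by `a`; two sides `a b c`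
of a face are replaced by the third side `a c`. -/
def Move (K : Set (ℕ × ℕ × ℕ)) (p q : List ℕ) : Prop :=
  ∃ (l r : List ℕ) (a b c : ℕ),
    (Adj K a b ∧ p = l ++ a :: b :: a :: r ∧ q = l ++ a :: r) ∨
    (((a, b, c) ∈ K ∨ (a, c, b) ∈ K) ∧ p = l ++ a :: b :: c :: r ∧ q = l ++ a :: c :: r)

/-- `p` is a closed edge path based at `a`. -/
def Loop (K : Set (ℕ × ℕ × ℕ)) (a : ℕ) (p : List ℕ) : Prop :=
  List.IsChain (Adj K) p ∧ p.head? = some a ∧ p.getLast? = some a

/-- `K` is a combinatorial open disc: an infinite (vertex set `ℕ`), connected, simply connected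
oriented simplicial `2`-complex in which the link of every vertex is a finite cycle (so that
every vertex is interior and `K` is locally finite). -/
structure OpenDisc (K : Set (ℕ × ℕ × ℕ)) : Prop where
  rot : ∀ x y z, (x, y, z) ∈ K → (y, z, x) ∈ K
  link : ∀ x, ∃ (d : ℕ) (u : ℕ → ℕ), 3 ≤ d ∧ (∀ i, i < d → u i ≠ x) ∧
    (∀ i j, i < d → j < d → u i = u j → i = j) ∧
    ∀ y z, (x, y, z) ∈ K ↔ ∃ i, i < d ∧ y = u i ∧ z = u ((i + 1) % d)
  conn : ∀ x y, Relation.ReflTransGen (Adj K) x y
  simply : ∀ a p, Loop K a p → Relation.EqvGen (Move K) p [a]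

/-- Circle packing for `K` with centres `c` and radii `r`: circles of adjacent vertices are
externally tangent, and the triples of the positively oriented faces are positively oriented. -/
structure Packing (K : Set (ℕ × ℕ × ℕ)) (c : ℕ → ℂ) (r : ℕ → ℝ) : Prop where
  pos : ∀ v, 0 < r v
  tangent : ∀ u v, Adj K u v → ‖c u - c v‖ = r u + r v
  oriented : ∀ x y z, (x, y, z) ∈ K → 0 < ((starRingEnd ℂ) (c y - c x) * (c z - c x)).im

/-- The circles have mutually disjoint interiors. -/
def Univalent (c : ℕ → ℂ) (r : ℕ → ℝ) : Prop :=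
  ∀ u v, u ≠ v → Disjoint (Metric.ball (c u) (r u)) (Metric.ball (c v) (r v))

/-- The carrier: the union of the closed discs and of the triangles spanned by the centres of
the three circles of a face (such a triangle consists of the triangular interstice of the face
and of parts of the three discs). -/
def carrier (K : Set (ℕ × ℕ × ℕ)) (c : ℕ → ℂ) (r : ℕ → ℝ) : Set ℂ :=
  (⋃ v, Metric.closedBall (c v) (r v)) ∪
    ⋃ f ∈ K, convexHull ℝ ({c f.1, c f.2.1, c f.2.2} : Set ℂ)

/-- Maximal packing of `K`: univalent with carrier the open unit disc. -/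
def Maximal (K : Set (ℕ × ℕ × ℕ)) (c : ℕ → ℂ) (r : ℕ → ℝ) : Prop :=
  Packing K c r ∧ Univalent c r ∧ carrier K c r = Metric.ball 0 1

/-- The union of the circles is bounded. -/
def BoundedPacking (c : ℕ → ℂ) (r : ℕ → ℝ) : Prop :=
  Bornology.IsBounded (⋃ v, Metric.sphere (c v) (r v))

/-- The centres `c (v 0), c (v 1), ...` converge nontangentially to the point `ζ` of the unit
circle. -/
def NonTang (c : ℕ → ℂ) (v : ℕ → ℕ) (ζ : ℂ) : Prop :=
  Tendsto (fun j => c (v j)) atTop (𝓝 ζ) ∧
    ∃ A : ℝ, ∀ j, ‖ζ - c (v j)‖ ≤ A * (1 - ‖c (v j)‖)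

end DFatou
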