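import Pool.Agent.H637R3.DF.Defs

/-!
Project DF: exact statements of all tasks (as `Prop`s `S_...`).
-/

namespace H637F

open Real MeasureTheory

/-! ### A. combinatorics -/

def S_MGR : Prop := ∀ M : ℕ → ℕ, Good M → StrictMono M ∧ (∀ n, n + 1 ≤ M n) ∧ ∀ n, 1 ≤ n → n + 50 ≤ M n

def S_PAR : Prop := ∀ M : ℕ → ℕ, Good M → ∀ k, 1 ≤ k →
  M (par M k) ≤ k ∧ k < M (par M k + 1) ∧ par M k < k ∧
    ∀ m, M m ≤ k → k < M (m + 1) → m = par M k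

def S_FLOA : Prop := ∀ M : ℕ → ℕ, Good M → ∀ n, 51 ≤ deg M n ∧
  ∀ i, i < deg M n → (n, w M n i, w M n ((i + 1) % deg M n)) ∈ FF M

def S_FLOB : Prop := ∀ M : ℕ → ℕ, Good M → ∀ n,
  (∀ i j, i < deg M n → j < deg M n → w M n i = w M n j → i = j) ∧
  (∀ y z, (n, y, z) ∈ FF M → ∃ i, i < deg M n ∧ y = w M n i ∧ z = w M n ((i + 1) % deg M n))

/-- abstract layout lemma. -/
def S_LAYABS : Prop := ∀ (P : Type) (M : ℕ → ℕ) (T : ℕ → P → ℕ → P → ℕ → P → Prop)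
  (D : ℕ → P → ℕ → P → Prop), Good M →
  (∀ x p y q z s, T x p y q z s → T y q z s x p) →
  (∀ x p y q z s, T x p y q z s → D x p y q) →
  (∀ x p y q, D x p y q → D y q x p) →
  (∀ x p y q z, D x p y q → ∃ s, T x p y q z s) →
  (∀ n p (s : ℕ → P),
    (∀ i, i + 1 < deg M n → T n p (w M n i) (s i) (w M n (i + 1)) (s (i + 1))) →
    T n p (w M n (deg M n - 1)) (s (deg M n - 1)) (w M n 0) (s 0)) →
  ∀ p q, D 0 p 1 q → ∃ X : ℕ → P, X 0 = p ∧ X 1 = q ∧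
    ∀ x y z, (x, y, z) ∈ FF M → T x (X x) y (X y) z (X z)

/-! ### B. the hyperbolic angle and Perron's method -/

def S_HAB : Prop := ∀ r s t : ℝ, 0 < r → r ≤ 1 / 8 → 0 < s → s ≤ 1 / 8 → 0 < t → t ≤ 1 / 8 →
  1.96 * r ≤ ha r s t ∧ ha r s t ≤ 2.02 * r

def S_HAM : Prop :=
  (∀ r s t : ℝ, ha r s t = ha r t s) ∧
  (∀ r r' s t : ℝ, 0 < r → r ≤ r' → r' < 1 → 0 < s → s < 1 → 0 < t → t < 1 → ha r s t ≤ ha r' s t) ∧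
  (∀ r s s' t : ℝ, 0 < r → r < 1 → 0 < s → s ≤ s' → s' < 1 → 0 < t → t < 1 → ha r s' t ≤ ha r s t) ∧
  ContinuousOn (fun p : ℝ × ℝ × ℝ => ha p.1 p.2.1 p.2.2)
    {p | 0 < p.1 ∧ p.1 < 1 ∧ 0 < p.2.1 ∧ p.2.1 < 1 ∧ 0 < p.2.2 ∧ p.2.2 < 1}

def S_PERRON : Prop := ∀ M : ℕ → ℕ, Good M →
  ∃ b : ℕ → ℝ, (∀ n, 0 < b n ∧ b n ≤ 1 / 8) ∧ ∀ n, tot ha M b n = 2 * π

/-! ### C. hyperbolic geometry -/

/-- law of cosines, existence. -/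
def S_LAWH1 : Prop := ∀ (X E F : V3) (r s t θ : ℝ), Frame X E F → 0 < X.2.2 →
  0 < r → r < 1 → 0 < s → s < 1 → 0 < t → t < 1 →
  Hyp (pol X E F (Ch r s) (Sh r s) θ) ∧ 0 < ha r s t ∧ ha r s t < π ∧
  HT X (pol X E F (Ch r s) (Sh r s) θ) (pol X E F (Ch r t) (Sh r t) (θ + ha r s t)) r s t

/-- law of cosines, uniqueness. -/
def S_LAWH2 : Prop := ∀ (X E F Z : V3) (r s t θ : ℝ), Frame X E F → 0 < X.2.2 → Hyp Z →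
  0 < r → r < 1 → 0 < s → s < 1 → 0 < t → t < 1 →
  HT X (pol X E F (Ch r s) (Sh r s) θ) Z r s t →
  Z = pol X E F (Ch r t) (Sh r t) (θ + ha r s t)

/-- polar coordinates of any point. -/
def S_POLANY : Prop := ∀ (X E F P : V3), Frame X E F → 0 < X.2.2 → Hyp P →
  ∃ S θ : ℝ, 0 ≤ S ∧ 0 ≤ θ ∧ θ < 2 * π ∧ P = pol X E F (√(1 + S ^ 2)) S θ

/-- existence of a frame with `E` pointing to `Y`. -/
def S_FRAME : Prop := ∀ (X Y : V3) (r s : ℝ), Hyp X → Hyp Y → 0 < r → r < 1 → 0 < s → s < 1 →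
  mink X Y = -Ch r s → ∃ E F, Frame X E F ∧ Y = pol X E F (Ch r s) (Sh r s) 0

def S_CLOSEH : Prop := ∀ (X : V3) (u : ℕ → V3) (β : ℕ → ℝ) (r : ℝ) (s : ℕ), Hyp X →
  0 < r → r < 1 → (∀ i, i ≤ s → Hyp (u i) ∧ 0 < β i ∧ β i < 1) → 1 ≤ s →
  (∀ i, i < s → HT X (u i) (u (i + 1)) r (β i) (β (i + 1))) →
  (∃ k : ℤ, (∑ i ∈ Finset.range s, ha r (β i) (β (i + 1))) + ha r (β s) (β 0) = 2 * π * k) →
  HT X (u s) (u 0) r (β s) (β 0)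

def S_LAYH : Prop := ∀ (M : ℕ → ℕ) (b : ℕ → ℝ), Good M → (∀ n, 0 < b n ∧ b n ≤ 1 / 8) →
  (∀ n, tot ha M b n = 2 * π) → ∃ X : ℕ → V3, HL M b X

/-- polar coordinates of the flower of `n`. -/
def S_POLN : Prop := ∀ M b X, HL M b X → ∀ n, ∃ (E F : V3) (θ : ℕ → ℝ), Frame (X n) E F ∧
  θ 0 = 0 ∧ θ (deg M n) = 2 * π ∧
  (∀ i, i < deg M n → θ (i + 1) = θ i + ha (b n) (b (w M n i)) (b (w M n ((i + 1) % deg M n)))) ∧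
  (∀ i, i < deg M n → X (w M n i) = pol (X n) E F (Ch (b n) (b (w M n i)))
    (Sh (b n) (b (w M n i))) (θ i))

def S_GINE : Prop := ∀ r s t u v φ : ℝ, 0 < r → r ≤ 1 / 8 → 0 < s → s ≤ 1 / 8 → 0 < t → t ≤ 1 / 8 →
  0 < u → u ≤ 1 / 8 → 0 < v → v ≤ 1 / 8 → ha r s t + ha r t u ≤ φ → φ ≤ 2 * π - ha r v s →
  0 < Real.sin (ha r s t) - (Ch r t / Sh r t) * Real.sin φ
    + (Ch r s / Sh r s) * Real.sin (φ - ha r s t)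

def S_DETG : Prop := ∀ (X E F : V3) (r s t u v C S θ θ' : ℝ), Frame X E F →
  0 < r → r ≤ 1 / 8 → 0 < s → s ≤ 1 / 8 → 0 < t → t ≤ 1 / 8 →
  0 < u → u ≤ 1 / 8 → 0 < v → v ≤ 1 / 8 → 0 ≤ S → S < C →
  ha r s t + ha r t u ≤ θ' - θ → θ' - θ ≤ 2 * π - ha r v s →
  0 < det3 (pol X E F (Ch r s) (Sh r s) θ) (pol X E F (Ch r t) (Sh r t) (θ + ha r s t))
    (pol X E F C S θ')

/-- flowers are convex polygons. -/
def S_FLOWC : Prop := ∀ M b X, HL M b X → ∀ n i l, i < deg M n → l < deg M n → l ≠ i →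
  l ≠ (i + 1) % deg M n →
  0 < det3 (X (w M n i)) (X (w M n ((i + 1) % deg M n))) (X (w M n l))

/-- small angles at the boundary vertices. -/
def S_LOC : Prop := ∀ M b X, HL M b X →
  (∀ k, 2 ≤ k → 0 < det3 (X (k - 1)) (X k) (X (k + 1))) ∧
  (∀ n, 1 ≤ n → 0 < det3 (X (M (n + 1))) (X (n + 1)) (X (n + 2))) ∧
  (∀ n, 1 ≤ n → 0 < det3 (X n) (X (n + 1)) (X (M n)))

def S_SEC : Prop := ∀ X Y Z W P : V3, 0 < det3 X Y Z → 0 ≤ det3 X Y P → 0 ≤ det3 X P Z →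
  0 < det3 X W Y → 0 < det3 X W Z → (0 < det3 X Y P ∨ 0 < det3 X P Z) → 0 < det3 X W P

def S_CVX1 : Prop := ∀ M b X, HL M b X → Cvx M X 1

/-- the points of the old polygon are in the inner sector at `n`: case A. -/
def S_CVXA : Prop := ∀ M b X, HL M b X → ∀ n, 1 ≤ n → ∀ P, Hyp P →
  0 ≤ det3 (X n) (X (n + 1)) P → 0 ≤ det3 (X (M n)) (X n) P →
  ∀ j, M n < j → j < M (n + 1) → 0 < det3 (X j) (X (j + 1)) P

def S_CVXB : Prop := ∀ M b X, HL M b X → ∀ n, 1 ≤ n → Cvx M X n →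
  (∀ l, n ≤ l → l < M n → 0 < det3 (X (M n)) (X (M n + 1)) (X l)) ∧
  (∀ l, n ≤ l → l ≤ M n → l ≠ n + 1 → 0 < det3 (X (M (n + 1))) (X (n + 1)) (X l))

def S_CVXC : Prop := ∀ M b X, HL M b X → ∀ n, 1 ≤ n → Cvx M X n →
  ∀ k, n < k → k < M n → ∀ u, M n < u → u ≤ M (n + 1) → 0 < det3 (X k) (X (k + 1)) (X u)

def S_CVX : Prop := ∀ M b X, HL M b X → ∀ n, 1 ≤ n → Cvx M X n

/-- strict polygon. -/
def SReg (M : ℕ → ℕ) (X : ℕ → V3) (n : ℕ) (P : V3) : Prop :=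
  ∀ k, n ≤ k → k ≤ M n → 0 < det3 (X k) (X (nx M n k)) P

/-- `X n` is strictly inside the next polygon. -/
def S_NIN : Prop := ∀ M b X, HL M b X → ∀ n, SReg M X (n + 1) (X n)

/-- the old polygon is the union of triangles with apex `X n`. -/
def S_FAN : Prop := ∀ M b X, HL M b X → ∀ n, 1 ≤ n → ∀ P, Reg M X n P →
  ∃ k, n < k ∧ k < M n ∧ InT (X n) (X k) (X (k + 1)) P

def S_MONO : Prop := ∀ M b X, HL M b X → ∀ n, 1 ≤ n → ∀ P, Hyp P →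
  (Reg M X n P → Reg M X (n + 1) P) ∧ (SReg M X n P → SReg M X (n + 1) P)

def S_R1 : Prop := ∀ M b X, HL M b X → ∀ P, Hyp P → Reg M X 1 P →
  ∃ y z, (0, y, z) ∈ BF M ∧ InT (X 0) (X y) (X z) P

def S_RS : Prop := ∀ M b X, HL M b X → ∀ n, 1 ≤ n → ∀ P, Hyp P → Reg M X (n + 1) P →
  Reg M X n P ∨ ∃ y z, (n, y, z) ∈ BF M ∧ InT (X n) (X y) (X z) P

/-- faces of block `n` are outside of the old polygon and inside the new one. -/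
def S_EXT : Prop := ∀ M b X, HL M b X → ∀ n y z, (n, y, z) ∈ BF M → ∀ P, Hyp P →
  (1 ≤ n → InT (X n) (X y) (X z) P → ¬ SReg M X n P) ∧
  (1 ≤ n → StT (X n) (X y) (X z) P → ¬ Reg M X n P)

def S_BR : Prop := ∀ M b X, HL M b X → ∀ n y z, (n, y, z) ∈ BF M → ∀ P, Hyp P →
  (InT (X n) (X y) (X z) P → Reg M X (n + 1) P) ∧
  (StT (X n) (X y) (X z) P → SReg M X (n + 1) P)

/-- faces with the same apex. -/
def S_SAME : Prop := ∀ M b X, HL M b X → ∀ n y z y' z', (n, y, z) ∈ BF M → (n, y', z') ∈ BF M →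
  ∀ P, Hyp P → StT (X n) (X y) (X z) P → InT (X n) (X y') (X z') P → y = y' ∧ z = z'

/-- tiling: uniqueness. -/
def S_TU : Prop := ∀ M b X, HL M b X → ∀ x y z x' y' z', (x, y, z) ∈ BF M → (x', y', z') ∈ BF M →
  ∀ P, Hyp P → StT (X x) (X y) (X z) P → InT (X x') (X y') (X z') P → x = x' ∧ y = y' ∧ z = z'

/-- in a tangent triple with large radii each disc is on the inner side of the opposite line. -/
def S_HALF : Prop := ∀ (X Y Z P : V3) (a b c : ℝ), Hyp X → Hyp Y → Hyp Z → Hyp P →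
  0 < a → a ≤ 1 / 8 → 0 < b → b ≤ 1 / 8 → 0 < c → c ≤ 1 / 8 → HT X Y Z a b c →
  -mink X P ≤ cR a → 0 < det3 Y Z P

/-- each disc is covered by the flower. -/
def S_FLC : Prop := ∀ M b X, HL M b X → ∀ n P, Hyp P → -mink (X n) P ≤ cR (b n) →
  ∃ i, i < deg M n ∧ InT (X n) (X (w M n i)) (X (w M n ((i + 1) % deg M n))) P

def S_DISJ : Prop := ∀ M b X, HL M b X → ∀ i j, i ≠ j → mink (X i) (X j) ≤ -Ch (b i) (b j)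

/-- only finitely many discs meet a compact set. -/
def S_PACKF : Prop := ∀ M b X, HL M b X → ∀ K : ℝ, {v : ℕ | (X v).2.2 ≤ K * cR (b v)}.Finite

def S_COV : Prop := ∀ M b X, HL M b X → ∀ P, Hyp P →
  ∃ x y z, (x, y, z) ∈ FF M ∧ InT (X x) (X y) (X z) P

/-! ### D. euclidean circles -/

def S_EUC1 : Prop := ∀ (X : V3) (b : ℝ), Hyp X → 0 < b → b < 1 → 0 < er X b ∧ ‖ez X b‖ + er X b < 1

def S_EUC2 : Prop := ∀ (X Y : V3) (a b : ℝ), Hyp X → Hyp Y → 0 < a → a < 1 → 0 < b → b < 1 →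
  ‖ez X a - ez Y b‖ ^ 2 = (er X a + er Y b) ^ 2
    + 2 * (-mink X Y - Ch a b) / ((X.2.2 + cR a) * (Y.2.2 + cR b))

def S_EUC4 : Prop := ∀ (X Y Z : V3) (a b c : ℝ), Hyp X → Hyp Y → Hyp Z → 0 < a → a < 1 →
  0 < b → b < 1 → 0 < c → c < 1 → HT X Y Z a b c →
  0 < ((starRingEnd ℂ) (ez Y b - ez X a) * (ez Z c - ez X a)).im

/-- a point of the triangle is in one of the discs or in the euclidean triangle of centres. -/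
def S_EUC5 : Prop := ∀ (X Y Z P : V3) (a b c : ℝ), Hyp X → Hyp Y → Hyp Z → Hyp P →
  0 < a → a < 1 → 0 < b → b < 1 → 0 < c → c < 1 → HT X Y Z a b c → InT X Y Z P →
  ez P 1 ∈ Metric.closedBall (ez X a) (er X a) ∨ ez P 1 ∈ Metric.closedBall (ez Y b) (er Y b) ∨
  ez P 1 ∈ Metric.closedBall (ez Z c) (er Z c) ∨
  ez P 1 ∈ convexHull ℝ ({ez X a, ez Y b, ez Z c} : Set ℂ)

/-! ### E. directions -/

def S_ARC : Prop := ∀ M b X, HL M b X → (∀ n, 1 ≤ n → SReg M X n OO) ∧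
  (∀ k, 1 ≤ k → 0 < det3 OO (X k) (X (k + 1))) ∧ (∀ n, 1 ≤ n → 0 < det3 OO (X (M n)) (X n))

/-- trigonometry: the direction (from the origin) of a point seen from `V` at angle `ψ` from the
origin (clockwise resp. counterclockwise). -/
def S_LT : Prop := ∀ (V E F U : V3) (β C S θ ψ φ : ℝ), Frame V E F → 0 < V.2.2 → 0 < β → β < 1 →
  cR β ≤ V.2.2 → 0 < S → C = √(1 + S ^ 2) → OO = pol V E F V.2.2 (√(V.2.2 ^ 2 - 1)) θ →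
  0 < ψ → ψ < π → 4 * β / ψ ≤ ‖Complex.exp (φ * Complex.I) - ed V‖ →
  (0 < det3 OO V (pol V E F C S (θ - ψ)) ∧
    (0 ≤ det3 OO V (DD φ) → 0 ≤ det3 OO (pol V E F C S (θ - ψ)) (DD φ))) ∧
  (0 < det3 OO (pol V E F C S (θ + ψ)) V ∧
    (0 ≤ det3 OO (DD φ) V → 0 ≤ det3 OO (DD φ) (pol V E F C S (θ + ψ))))

def S_LOSS : Prop := ∀ M b X, HL M b X → ∀ n J : ℕ, 1 ≤ n → 1 ≤ J → 8 * J ≤ M (n + 1) - M n →
  0 < det3 OO (X n) (X (M (n + 1) + 1 - J)) ∧ 0 < det3 OO (X (M n + J)) (X n) ∧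
  ∀ φ : ℝ, 3 / (J : ℝ) ≤ ‖Complex.exp (φ * Complex.I) - ed (X n)‖ →
    (0 ≤ det3 OO (X n) (DD φ) → 0 ≤ det3 OO (X (M (n + 1) + 1 - J)) (DD φ)) ∧
    (0 ≤ det3 OO (DD φ) (X n) → 0 ≤ det3 OO (DD φ) (X (M n + J)))

/-- the good directions. -/
def EE (X : ℕ → V3) : Set ℝ :=
  {φ | 0 ≤ φ ∧ φ ≤ 2 * π ∧ Btw φ (X 1) (X 2) ∧
    ∀ n : ℕ, 1 ≤ n → 3 / (JJ n : ℝ) ≤ ‖Complex.exp (φ * Complex.I) - ed (X n)‖}

def S_MEAS : Prop := ∀ b X, HL MM b X → MeasurableSet (EE X) ∧ 0 < volume (EE X)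

/-- visibility (nontangential approach) of the centre of circle `X` from `exp (i φ)`. -/
def Vis (φ : ℝ) (X : V3) (a : ℝ) : Prop :=
  ‖Complex.exp (φ * Complex.I) - ez X a‖ ≤ 7 * (1 - ‖ez X a‖)

def S_VIS : Prop := ∀ (X Y : V3) (a b φ : ℝ), Hyp X → Hyp Y → 0 < a → a < 1 → 0 < b → b < 1 →
  mink X Y = -Ch a b → 0 < det3 OO X Y → Btw φ X Y → Vis φ X a ∨ Vis φ Y b

/-- the ray in direction `φ` leaves the polygon `n` through the good boundary edge `(a, b)`. -/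
def CE (X : ℕ → V3) (G : ℕ → Prop) (φ : ℝ) (n a b : ℕ) : Prop :=
  (n ≤ a ∧ a < MM n ∧ b = a + 1 ∧ G a ∧ Btw φ (X a) (X b)) ∨
  (2 ≤ n ∧ a = MM n ∧ b = n ∧ G (n - 1) ∧ Btw φ (X a) (X b))

/-- crossing, right side. -/
def S_CER : Prop := ∀ b X r c ty G φ, HL MM b X → PL r c ty G → φ ∈ EE X → ∀ n, 1 ≤ n →
  CE X G φ n n (n + 1) →
  (CE X G φ (n + 1) (MM (n + 1)) (n + 1) ∧ Btw φ (X (MM (n + 1))) (X (n + 1))) ∨
  (∃ i, 1 ≤ i ∧ i < JJ n ∧ CE X G φ (n + 1) (MM (n + 1) - i) (MM (n + 1) - i + 1) ∧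
    Btw φ (X (MM (n + 1) - i)) (X (MM (n + 1) - i + 1)) ∧ Btw φ (X n) (X (MM (n + 1))))

/-- crossing, left side. -/
def S_CEL : Prop := ∀ b X r c ty G φ, HL MM b X → PL r c ty G → φ ∈ EE X → ∀ n, 2 ≤ n →
  CE X G φ n (MM n) n →
  (∃ i, i < JJ n ∧ CE X G φ (n + 1) (MM n + i) (MM n + i + 1) ∧
    Btw φ (X (MM n + i)) (X (MM n + i + 1)) ∧ (1 ≤ i → Btw φ (X (MM n + 1)) (X n)))

/-- two types of visible good vertices occur infinitely often. -/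
def S_TWO : Prop := ∀ b X r c ty G φ, HL MM b X → PL r c ty G → φ ∈ EE X → ∀ n0 : ℕ,
  ∃ x y, n0 ≤ x ∧ n0 ≤ y ∧ Vis φ (X x) (b x) ∧ Vis φ (X y) (b y) ∧ ty x ≠ ty y ∧
    ty x < 3 ∧ ty y < 3 ∧ ‖c x - pp (ty x)‖ ≤ 1 / 10 ∧ ‖c y - pp (ty y)‖ ≤ 1 / 10

/-! ### F. the bounded packing -/

def S_MMG : Prop := Good MM

def S_LAWE1 : Prop := ∀ (x : ℂ) (r s t θ : ℝ), 0 < r → 0 < s → 0 < t →
  0 < ea r s t ∧ ea r s t < π ∧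
  ET x (x + ((r + s : ℝ) : ℂ) * Complex.exp (θ * Complex.I))
    (x + ((r + t : ℝ) : ℂ) * Complex.exp (((θ + ea r s t : ℝ) : ℂ) * Complex.I)) r s t

def S_LAWE2 : Prop := ∀ (x z : ℂ) (r s t θ : ℝ), 0 < r → 0 < s → 0 < t →
  ET x (x + ((r + s : ℝ) : ℂ) * Complex.exp (θ * Complex.I)) z r s t →
  z = x + ((r + t : ℝ) : ℂ) * Complex.exp (((θ + ea r s t : ℝ) : ℂ) * Complex.I)

def S_CLOSEE : Prop := ∀ (x : ℂ) (u : ℕ → ℂ) (β : ℕ → ℝ) (r : ℝ) (s : ℕ), 0 < r →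
  (∀ i, i ≤ s → 0 < β i) → 1 ≤ s →
  (∀ i, i < s → ET x (u i) (u (i + 1)) r (β i) (β (i + 1))) →
  (∃ k : ℤ, (∑ i ∈ Finset.range s, ea r (β i) (β (i + 1))) + ea r (β s) (β 0) = 2 * π * k) →
  ET x (u s) (u 0) r (β s) (β 0)

def S_LAYE : Prop := ∀ (M : ℕ → ℕ) (r : ℕ → ℝ), Good M → (∀ n, 0 < r n) →
  (∀ n, ∃ k : ℤ, tot ea M r n = 2 * π * k) → ∃ c : ℕ → ℂ, c 0 = -1 ∧ c 1 = -1 + ((r 0 + r 1 : ℝ) : ℂ) ∧
    ∀ x y z, (x, y, z) ∈ FF M → ET (c x) (c y) (c z) (r x) (r y) (r z)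

/-- three distinct types. -/
def D3 (ty : ℕ → ℕ) (x y z : ℕ) : Prop :=
  ty x < 3 ∧ ty y < 3 ∧ ty z < 3 ∧ ty x ≠ ty y ∧ ty y ≠ ty z ∧ ty x ≠ ty z

/-- combinatorial rules for types and good edges. -/
structure TG (ty : ℕ → ℕ) (G : ℕ → Prop) : Prop where
  t0 : ty 0 = 0
  t1 : ty 1 = 1
  t2 : ty 2 = 2
  g0 : ¬ G 0
  g1 : G 1
  right0 : ∀ n, 1 ≤ n → G n → D3 ty n (MM (n + 1)) (n + 1)
  right1 : ∀ n, 1 ≤ n → G n → ∀ i, 1 ≤ i → i < JJ n →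
    G (MM (n + 1) - i) ∧ D3 ty n (MM (n + 1) - i) (MM (n + 1) - i + 1)
  left1 : ∀ n, 2 ≤ n → G (n - 1) → ∀ i, i < JJ n →
    G (MM n + i) ∧ D3 ty n (MM n + i) (MM n + i + 1)
  conv : ∀ k, G k → k = 1 ∨ (∃ n i, 2 ≤ n ∧ i < JJ n ∧ G (n - 1) ∧ k = MM n + i) ∨
    (∃ n i, 1 ≤ n ∧ 1 ≤ i ∧ i < JJ n ∧ G n ∧ k = MM (n + 1) - i)

def S_TYG : Prop := ∃ ty G, TG ty G

/-- prescribed radius. -/
noncomputable def rho (ty : ℕ → ℕ) (k : ℕ) : ℝ := if ty k = 2 then (1 / 10 ^ 20) * (1 / 16) ^ k else 1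

/-- the prescribed (good) new vertices when `n` is closed. -/
def GC (G : ℕ → Prop) (n k : ℕ) : Prop :=
  (n = 0 ∧ k = 2) ∨ (2 ≤ n ∧ G (n - 1) ∧ MM n < k ∧ k ≤ MM n + JJ n) ∨
  (1 ≤ n ∧ G n ∧ MM (n + 1) - JJ n < k ∧ k ≤ MM (n + 1))

structure RR (ty : ℕ → ℕ) (G : ℕ → Prop) (r : ℕ → ℝ) : Prop where
  z0 : r 0 = 1
  z1 : r 1 = 1
  pos : ∀ n, 0 < r n
  le1 : ∀ n, r n ≤ 1
  tt : ∀ n, ∃ k : ℤ, H637F.tot ea MM r n = 2 * π * k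
  gc : ∀ n k, GC G n k → r k = rho ty k
  ngc : ∀ n k, MM n < k → k ≤ MM (n + 1) → ¬ GC G n k → r k ≤ r n / 4

/-- one closing step: the common radius of the non prescribed new circles. -/
def S_PSTEP : Prop := ∀ ty G, TG ty G → ∀ (n : ℕ) (r : ℕ → ℝ), (∀ k, 0 < r k) →
  ∃ (s : ℝ) (k : ℤ), 0 < s ∧ s ≤ r n / 4 ∧
    ∀ r' : ℕ → ℝ, (∀ j, j ≤ MM n → r' j = r j) →
      (∀ j, MM n < j → j ≤ MM (n + 1) → GC G n j → r' j = rho ty j) →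
      (∀ j, MM n < j → j ≤ MM (n + 1) → ¬ GC G n j → r' j = s) →
      tot ea MM r' n = 2 * π * k

def S_RREC : Prop := ∀ ty G, TG ty G → ∃ r, RR ty G r

/-- location of the good vertices. -/
def S_NEAR : Prop := ∀ (ty : ℕ → ℕ) (G : ℕ → Prop) (r : ℕ → ℝ) (c : ℕ → ℂ), TG ty G → RR ty G r →
  c 0 = -1 → c 1 = 1 → (∀ x y z, (x, y, z) ∈ FF MM → ET (c x) (c y) (c z) (r x) (r y) (r z)) →
  (∀ n, n ≤ 2 → ‖c n - pp (ty n)‖ ≤ 1 / 10) ∧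
  ∀ k, G k → ‖c k - pp (ty k)‖ ≤ 1 / 10 ∧ ‖c (k + 1) - pp (ty (k + 1))‖ ≤ 1 / 10

def S_BND : Prop := ∀ (ty : ℕ → ℕ) (G : ℕ → Prop) (r : ℕ → ℝ) (c : ℕ → ℂ), TG ty G → RR ty G r →
  (∀ x y z, (x, y, z) ∈ FF MM → ET (c x) (c y) (c z) (r x) (r y) (r z)) →
  (∀ n, n ≤ 2 → ‖c n - pp (ty n)‖ ≤ 1 / 10) →
  (∀ k, G k → ‖c k - pp (ty k)‖ ≤ 1 / 10 ∧ ‖c (k + 1) - pp (ty (k + 1))‖ ≤ 1 / 10) →
  ∃ B : ℝ, ∀ n, ‖c n‖ + r n ≤ B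

def S_PEX : Prop := ∃ r c ty G, PL r c ty G

end H637F
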