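import Pool.Agent.H637R3.DF.Stm
import Pool.Agent.H637R3.DF.FDefs

/-!
Project DF: last tasks.
-/

namespace H637F

open Real MeasureTheory DFatou Filter Topology

/-- links of the spiral complex. -/
def S_LNK : Prop := ∀ M : ℕ → ℕ, Good M →
  (∀ x y z, (x, y, z) ∈ FF M → (y, z, x) ∈ FF M) ∧
  ∀ x, ∃ (d : ℕ) (u : ℕ → ℕ), 3 ≤ d ∧ (∀ i, i < d → u i ≠ x) ∧
    (∀ i j, i < d → j < d → u i = u j → i = j) ∧
    ∀ y z, (x, y, z) ∈ FF M ↔ ∃ i, i < d ∧ y = u i ∧ z = u ((i + 1) % d)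

def S_CONN : Prop := ∀ M : ℕ → ℕ, Good M → ∀ x y, Relation.ReflTransGen (Adj (FF M)) x y

/-- neighbours of smaller index. -/
def S_LOW : Prop := ∀ M : ℕ → ℕ, Good M →
  (∀ x, Adj (FF M) 1 x → x < 1 → x = 0) ∧
  ∀ k, 2 ≤ k → ∀ x y, Adj (FF M) k x → Adj (FF M) k y → x < k → y < k →
    x = y ∨ ((k, x, y) ∈ FF M ∨ (k, y, x) ∈ FF M) ∨
      ∃ z, z < k ∧ ((k, x, z) ∈ FF M ∨ (k, z, x) ∈ FF M) ∧ ((k, z, y) ∈ FF M ∨ (k, y, z) ∈ FF M)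

/-- loops at `0` are contractible. -/
def S_SIM0 : Prop := ∀ M : ℕ → ℕ, Good M → ∀ p, Loop (FF M) 0 p →
  Relation.EqvGen (Move (FF M)) p [0]

def S_SIMP : Prop := ∀ M : ℕ → ℕ, Good M → ∀ a p, Loop (FF M) a p →
  Relation.EqvGen (Move (FF M)) p [a]

def S_MAXP : Prop := ∀ M b X, HL M b X →
  Packing (FF M) (fun v => ez (X v) (b v)) (fun v => er (X v) (b v)) ∧
  Univalent (fun v => ez (X v) (b v)) (fun v => er (X v) (b v))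

def S_CAR : Prop := ∀ M b X, HL M b X →
  carrier (FF M) (fun v => ez (X v) (b v)) (fun v => er (X v) (b v)) = Metric.ball 0 1

def S_PLP : Prop := ∀ r c ty G, PL r c ty G → Packing (FF MM) c r ∧ BoundedPacking c r

def S_SEQ : Prop := ∀ b X (c : ℕ → ℂ) (ty : ℕ → ℕ) (φ : ℝ), HL MM b X →
  (∀ n0 : ℕ, ∃ x y, n0 ≤ x ∧ n0 ≤ y ∧ Vis φ (X x) (b x) ∧ Vis φ (X y) (b y) ∧ ty x ≠ ty y ∧
    ty x < 3 ∧ ty y < 3 ∧ ‖c x - pp (ty x)‖ ≤ 1 / 10 ∧ ‖c y - pp (ty y)‖ ≤ 1 / 10) →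
  ∃ v : ℕ → ℕ, NonTang (fun n => ez (X n) (b n)) v (Complex.exp (φ * Complex.I)) ∧
    ¬ ∃ L, Tendsto (fun j => c (v j)) atTop (𝓝 L)

end H637F
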